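import Pool.Agent.MP_67ad14_al.Classes

/-!
# New `Sp`-invariant classes in `H²(h_{g,1})`, in weights `16 m`
-/

namespace Pool.Agent.Results.MP_67ad14_al.InvariantH2

open Pool.Agent.MP_67ad14_al

/-- For all `m` and all `g ≥ 4 m + 2` there are `⌊m / 2⌋ - 1` many `Sp(2g, ℚ)`-invariant
`2`-cocycles of weight `16 m` on `h_{g,1}` whose classes in `H²(h_{g,1})` are linearly independent;
so `dim H²(h_{g,1})^{Sp}_{16 m} ≥ ⌊m / 2⌋ - 1`, which is at least `1` for `m ≥ 4`. For instance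
`H²(h_{g,1})^{Sp}_{64} ≠ 0` for all `g ≥ 18`. As `16 m` is not congruent to `2` modulo `4`, the
classes `e_1, t_3, t_5, …` (which live in the weights `2, 6, 10, …`) do not span
`H²(h_{g,1})^{Sp}`. -/
theorem result (m : ℕ) (g : ℕ) (hg : 4 * m + 2 ≤ g) :
    ∃ c : Fin (m / 2 - 1) → Form g,
      (∀ i, IsCocycle (16 * m) (c i) ∧ IsSpInvariant (c i)) ∧
      ∀ a : Fin (m / 2 - 1) → ℚ, IsCoboundary (16 * m) (∑ i, a i • c i) → a = 0 :=
  ⟨fun i => wdg g (2 * (i.val + 1) + 1) (2 * (m - i.val - 2) + 1),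
    fun i => ⟨wdg_cocycle (by have := i.2; omega), wdg_inv _ _⟩, fun a ha => indep m hg a ha⟩

end Pool.Agent.Results.MP_67ad14_al.InvariantH2
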